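import Pool.Agent.W445.Tmr.Nest

/-!
# Minimal rank and triangular minimal rank of bipartite chordal partial matrices
-/

set_option autoImplicit false

namespace Pool.Agent.W445.Tmr

open Module

theorem main (F : Type) [Field F] (m n : ℕ) (J : Set (Fin m × Fin n))
    (a : Matrix (Fin m) (Fin n) F) (G : SimpleGraph (Fin m ⊕ Fin n))
    (hGJ : G = SimpleGraph.fromRel (fun x y : Fin m ⊕ Fin n =>
            ∃ i j, x = Sum.inl i ∧ y = Sum.inr j ∧ (i, j) ∈ J))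
    (hG : ∀ (u : Fin m ⊕ Fin n) (c : G.Walk u u), c.IsCycle → 6 ≤ c.length →
        ∃ i j : ℕ, i + 1 < j ∧ j < c.length ∧ ¬ (i = 0 ∧ j + 1 = c.length) ∧
          G.Adj (c.getVert i) (c.getVert j)) :
      sSup {r : ℕ | ∃ T : Set (Fin m × Fin n),
          Maximal (fun S : Set (Fin m × Fin n) =>
              S ⊆ J ∧ ∀ p ∈ S, ∀ q ∈ S, (p.1, q.2) ∈ S ∨ (q.1, p.2) ∈ S) T ∧
          r = sInf {k : ℕ | ∃ B : Matrix (Fin m) (Fin n) F,
                (∀ p ∈ T, B p.1 p.2 = a p.1 p.2) ∧ B.rank = k}}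
        = sInf {k : ℕ | ∃ B : Matrix (Fin m) (Fin n) F,
                (∀ p ∈ J, B p.1 p.2 = a p.1 p.2) ∧ B.rank = k} := by
  set P : Fin m → Fin n → Prop := fun i c => (i, c) ∈ J with hP
  have hGP : G = bip P := by
    rw [hGJ]
    ext x y
    rw [SimpleGraph.fromRel_adj]
    constructor
    · rintro ⟨hxy, ⟨i, j, rfl, rfl, h⟩ | ⟨i, j, rfl, rfl, h⟩⟩
      · exact bip_lr.2 h
      · exact bip_rl.2 h
    · rintro (⟨i, c, rfl, rfl, h⟩ | ⟨i, c, rfl, rfl, h⟩)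
      · exact ⟨by simp, Or.inl ⟨i, c, rfl, rfl, h⟩⟩
      · exact ⟨by simp, Or.inr ⟨i, c, rfl, rfl, h⟩⟩
  have hnest : HasNest P := by
    apply hasNest
    rw [← hGP]
    exact hG
  -- minimal ranks
  set mr : Set (Fin m × Fin n) → ℕ := fun T => sInf {k : ℕ | ∃ B : Matrix (Fin m) (Fin n) F,
      (∀ p ∈ T, B p.1 p.2 = a p.1 p.2) ∧ B.rank = k} with hmr
  have hne : ∀ T : Set (Fin m × Fin n), {k : ℕ | ∃ B : Matrix (Fin m) (Fin n) F,
      (∀ p ∈ T, B p.1 p.2 = a p.1 p.2) ∧ B.rank = k}.Nonempty := fun T =>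
    ⟨a.rank, a, fun _ _ => rfl, rfl⟩
  have hmono : ∀ T T' : Set (Fin m × Fin n), T ⊆ T' → mr T ≤ mr T' := by
    intro T T' h
    obtain ⟨B, hB, hr⟩ := Nat.sInf_mem (hne T')
    exact Nat.sInf_le ⟨B, fun p hp => hB p (h hp), hr⟩
  change sSup {r : ℕ | ∃ T : Set (Fin m × Fin n),
          Maximal (fun S : Set (Fin m × Fin n) =>
              S ⊆ J ∧ ∀ p ∈ S, ∀ q ∈ S, (p.1, q.2) ∈ S ∨ (q.1, p.2) ∈ S) T ∧
          r = mr T} = mr J
  set Q : Set (Fin m × Fin n) → Prop := fun S =>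
    S ⊆ J ∧ ∀ p ∈ S, ∀ q ∈ S, (p.1, q.2) ∈ S ∨ (q.1, p.2) ∈ S with hQ
  have hbdd : BddAbove {r : ℕ | ∃ T : Set (Fin m × Fin n), Maximal Q T ∧ r = mr T} := by
    refine ⟨mr J, ?_⟩
    rintro _ ⟨T, hT, rfl⟩
    exact hmono T J hT.1.1
  have hext : ∀ T, Q T → ∃ T', T ⊆ T' ∧ Maximal Q T' := fun T hT =>
    (Set.toFinite {S | Q S}).exists_le_maximal hT
  refine le_antisymm ?_ ?_
  · obtain ⟨T, _, hT⟩ := hext ∅ ⟨Set.empty_subset _, by simp⟩
    refine csSup_le ⟨_, T, hT, rfl⟩ ?_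
    rintro _ ⟨T, hT, rfl⟩
    exact hmono T J hT.1.1
  · set k := sSup {r : ℕ | ∃ T : Set (Fin m × Fin n), Maximal Q T ∧ r = mr T} with hk
    have hcert : ∀ q, Cert P (fun i c => a i c) ∅ q → q ≤ k := by
      intro q hq
      obtain ⟨T, hTJ, _, hT2, hT3⟩ := hq.exists_triangular
      have hQT : Q {p | T p.1 p.2} := by
        refine ⟨fun p hp => hTJ p.1 p.2 hp, ?_⟩
        rintro p hp p' hp'
        rcases hT2 p.2 p'.2 with h | h
        · exact Or.inl (h p.1 hp)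
        · exact Or.inr (h p'.1 hp')
      obtain ⟨T', hTT', hT'⟩ := hext _ hQT
      refine le_trans ?_ (le_csSup hbdd ⟨T', hT', rfl⟩)
      obtain ⟨B, hB, hr⟩ := Nat.sInf_mem (hne T')
      have h1 := hT3 (fun i c => B i c) fun i c h => hB (i, c) (hTT' h)
      have h2 : finrank F (Submodule.span F (Set.range fun i c => B i c)) = B.rank :=
        (Matrix.rank_eq_finrank_span_row B).symm
      rw [h2, Set.image_empty, Submodule.span_empty, finrank_bot, zero_add] at h1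
      change q ≤ sInf _
      rw [← hr]
      exact h1
    obtain ⟨B, hB, hr⟩ := exists_completion hcert hnest
    refine le_trans (Nat.sInf_le ⟨Matrix.of B, fun p hp => hB p.1 p.2 hp, rfl⟩) ?_
    rw [Matrix.rank_eq_finrank_span_row]
    exact hr

end Pool.Agent.W445.Tmr
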