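import Pool.Agent.W445.Tmr.Ext

/-!
# Existence of a completion of small rank
-/

set_option autoImplicit false

namespace Pool.Agent.W445.Tmr

open Module Submodule

variable {F : Type} [Field F] {α β : Type} [Finite α] [Finite β]

/-- every nonempty set of rows has a nest point -/
def HasNest (J : α → β → Prop) : Prop :=
  ∀ S : Set α, S.Nonempty → ∃ t ∈ S, ∀ c c', J t c → J t c' →
    (∀ i ∈ S, J i c → J i c') ∨ ∀ i ∈ S, J i c' → J i c

theorem exists_config {V : Type} [AddCommGroup V] [Module F V] [FiniteDimensional F V]
    {J : α → β → Prop} {a : α → β → F} {k : ℕ} (hk : finrank F V = k)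
    (hcert : ∀ q, Cert J a ∅ q → q ≤ k) (hnest : HasNest J) :
    ∀ (n : ℕ) (S : Set α), S.ncard = n → ∃ (u : α → V) (v : β → V →ₗ[F] F),
      (∀ i ∈ S, ∀ c, J i c → v c (u i) = a i c) ∧
      ∀ c q, Cert J a (R J S c) q → finrank F (span F (u '' R J S c)) + q ≤ k := by
  intro n
  induction n with
  | zero =>
    intro S hS
    rw [Set.ncard_eq_zero (Set.toFinite _)] at hS
    subst hS
    refine ⟨fun _ => 0, fun _ => 0, by simp, fun c q hq => ?_⟩
    have e : R J ∅ c = ∅ := by
      ext i
      simp [R]
    rw [e] at hq ⊢
    rw [Set.image_empty, Submodule.span_empty, finrank_bot, zero_add]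
    exact hcert q hq
  | succ n ih =>
    intro S hS
    have hne : S.Nonempty := by
      rw [← Set.ncard_pos (Set.toFinite _), hS]
      omega
    obtain ⟨t, htS, hnt⟩ := hnest S hne
    obtain ⟨u, v, heq, hD⟩ := ih (S \ {t}) (by
      rw [Set.ncard_sdiff_singleton_of_mem htS, hS]
      rfl)
    obtain ⟨x, hx⟩ := exists_vector (t := t) hk heq hD (by
      intro c c' hc hc'
      rcases hnt c c' hc hc' with h | h
      · exact Or.inl fun i hi => ⟨hi.1, h i hi.1.1 hi.2⟩
      · exact Or.inr fun i hi => ⟨hi.1, h i hi.1.1 hi.2⟩)
    classical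
    set U : β → Submodule F V := fun c => span F (u '' R J (S \ {t}) c) with hU
    -- the corrections of the functionals
    have hφ : ∀ c, ∃ φ : V →ₗ[F] F, (J t c → (v c + φ) x = a t c) ∧ ∀ y ∈ U c, φ y = 0 := by
      intro c
      by_cases htc : J t c
      · rcases hx c htc with ⟨_, h2⟩ | ⟨h1, _⟩
        · exact ⟨0, fun _ => by simpa using h2, by simp⟩
        · obtain ⟨ψ, hψ, hψx⟩ : ∃ ψ ∈ (U c).dualAnnihilator, ψ x ≠ 0 := by
            by_contra hcon
            push Not at hcon
            exact h1 ((Subspace.forall_mem_dualAnnihilator_apply_eq_zero_iff (U c) x).1 hcon)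
          refine ⟨((a t c - v c x) / ψ x) • ψ, fun _ => ?_, fun y hy => ?_⟩
          · rw [LinearMap.add_apply, LinearMap.smul_apply, smul_eq_mul, div_mul_cancel₀ _ hψx]
            ring
          · rw [LinearMap.smul_apply, (Submodule.mem_dualAnnihilator ψ).1 hψ y hy, smul_zero]
      · exact ⟨0, fun h => absurd h htc, by simp⟩
    choose φ hφ1 hφ2 using hφ
    have hut : ∀ i ∈ S \ {t}, Function.update u t x i = u i := fun i hi =>
      Function.update_of_ne (fun h => hi.2 h) _ _
    refine ⟨Function.update u t x, fun c => v c + φ c, ?_, ?_⟩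
    · intro i hi c hic
      by_cases hit : i = t
      · subst hit
        rw [Function.update_self]
        exact hφ1 c hic
      · have hi' : i ∈ S \ {t} := ⟨hi, hit⟩
        rw [hut i hi', LinearMap.add_apply, heq i hi' c hic,
          hφ2 c (u i) (Submodule.subset_span ⟨i, ⟨hi', hic⟩, rfl⟩), add_zero]
    · intro c q hq
      by_cases htc : J t c
      · have e : R J S c = insert t (R J (S \ {t}) c) := by
          ext i
          simp only [R, Set.mem_ofPred_eq, Set.mem_insert_iff, Set.mem_sdiff, Set.mem_singleton_iff]
          constructor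
          · rintro ⟨h1, h2⟩
            by_cases h : i = t
            · exact Or.inl h
            · exact Or.inr ⟨⟨h1, h⟩, h2⟩
          · rintro (rfl | h)
            · exact ⟨htS, htc⟩
            · exact ⟨h.1.1, h.2⟩
        have e2 : Function.update u t x '' R J S c = insert x (u '' R J (S \ {t}) c) := by
          rw [e, Set.image_insert_eq, Function.update_self]
          congr 1
          exact Set.image_congr fun i hi => hut i hi.1
        rw [e2]
        rw [e] at hq
        rcases hx c htc with ⟨h1, _⟩ | ⟨_, h2⟩
        · rw [Submodule.span_insert_eq_span h1]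
          exact hD c q (hq.mono (Set.subset_insert _ _))
        · have h3 := h2 q hq
          have h4 : finrank F (span F (insert x (u '' R J (S \ {t}) c))) ≤
              finrank F (span F (u '' R J (S \ {t}) c)) + 1 := by
            rw [Submodule.span_insert]
            have h5 := Submodule.finrank_add_le_finrank_add_finrank (span F {x})
              (span F (u '' R J (S \ {t}) c))
            have h6 : finrank F (span F ({x} : Set V)) ≤ 1 := by
              simpa using finrank_span_le_card (R := F) ({x} : Set V)
            omega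
          omega
      · have e : R J S c = R J (S \ {t}) c := by
          ext i
          simp only [R, Set.mem_ofPred_eq, Set.mem_sdiff, Set.mem_singleton_iff]
          constructor
          · rintro ⟨h1, h2⟩
            exact ⟨⟨h1, fun h => htc (h ▸ h2)⟩, h2⟩
          · rintro ⟨h1, h2⟩
            exact ⟨h1.1, h2⟩
        have e2 : Function.update u t x '' R J S c = u '' R J (S \ {t}) c := by
          rw [e]
          exact Set.image_congr fun i hi => hut i hi.1
        rw [e2]
        rw [e] at hq
        exact hD c q hq

/-- a completion of rank at most `k` -/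
theorem exists_completion {J : α → β → Prop} {a : α → β → F} {k : ℕ}
    (hcert : ∀ q, Cert J a ∅ q → q ≤ k) (hnest : HasNest J) :
    ∃ B : α → β → F, (∀ i c, J i c → B i c = a i c) ∧
      finrank F (span F (Set.range B)) ≤ k := by
  obtain ⟨u, v, heq, -⟩ := exists_config (V := Fin k → F) (by simp) hcert hnest
    (Set.univ : Set α).ncard Set.univ rfl
  refine ⟨fun i c => v c (u i), fun i c h => heq i (Set.mem_univ _) c h, ?_⟩
  let g : (Fin k → F) →ₗ[F] (β → F) := LinearMap.pi v
  have h1 : span F (Set.range fun i c => v c (u i)) ≤ LinearMap.range g := by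
    rw [Submodule.span_le]
    rintro _ ⟨i, rfl⟩
    exact ⟨u i, rfl⟩
  have : Fintype β := Fintype.ofFinite β
  calc finrank F (span F (Set.range fun i c => v c (u i)))
      ≤ finrank F (LinearMap.range g) := Submodule.finrank_mono h1
    _ ≤ finrank F (Fin k → F) := LinearMap.finrank_range_le g
    _ = k := by simp

end Pool.Agent.W445.Tmr
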