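import Pool.Agent.W445.Tmr.Lin

/-!
# The extension step: adding a row that is a nest point
-/

set_option autoImplicit false

namespace Pool.Agent.W445.Tmr

open Module Submodule

variable {F : Type} [Field F] {α β : Type} [Finite α] [Finite β]
  {V : Type} [AddCommGroup V] [Module F V] [FiniteDimensional F V]

/-- the rows of `S` whose entry in column `c` is specified -/
def R (J : α → β → Prop) (S : Set α) (c : β) : Set α := {i | i ∈ S ∧ J i c}

omit [Finite α] [Finite β] [FiniteDimensional F V] in
lemma map_pi {J : α → β → Prop} {a : α → β → F} {S : Set α} {u : α → V}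
    {v : β → V →ₗ[F] F} (heq : ∀ i ∈ S, ∀ c, J i c → v c (u i) = a i c) {K : Set β} {Z : Set α}
    (hZ : ∀ i ∈ Z, i ∈ S ∧ ∀ c ∈ K, J i c) :
    (span F (u '' Z)).map (LinearMap.pi fun c : K => v c) =
      span F ((fun i => fun c : K => a i c) '' Z) := by
  have e : (⇑(LinearMap.pi fun c : K => v c) ∘ u) '' Z = (fun i => fun c : K => a i c) '' Z := by
    refine Set.image_congr fun i hi => ?_
    funext c
    exact heq i (hZ i hi).1 c ((hZ i hi).2 c c.2)
  rw [Submodule.map_span, ← Set.image_comp, e]

theorem exists_vector {J : α → β → Prop} {a : α → β → F} {S : Set α} {t : α} {k : ℕ}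
    (hk : finrank F V = k) {u : α → V} {v : β → V →ₗ[F] F}
    (heq : ∀ i ∈ S, ∀ c, J i c → v c (u i) = a i c)
    (hD : ∀ c q, Cert J a (R J S c) q → finrank F (span F (u '' R J S c)) + q ≤ k)
    (hnest : ∀ c c', J t c → J t c' → R J S c ⊆ R J S c' ∨ R J S c' ⊆ R J S c) :
    ∃ x : V, ∀ c, J t c →
      (x ∈ span F (u '' R J S c) ∧ v c x = a t c) ∨
      (x ∉ span F (u '' R J S c) ∧ ∀ q, Cert J a (insert t (R J S c)) q →
        finrank F (span F (u '' R J S c)) + 1 + q ≤ k) := by
  by_contra hN
  push Not at hN
  set U : β → Submodule F V := fun c => span F (u '' R J S c) with hU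
  have hUmono : ∀ c c', R J S c ⊆ R J S c' → U c ≤ U c' := fun c c' h =>
    Submodule.span_mono (Set.image_mono h)
  -- the descent
  have descent : ∀ n : ℕ, ∀ j : β, (R J S j).ncard = n → J t j →
      (∃ q, Cert J a (insert t (R J S j)) q ∧ k ≤ finrank F (U j) + q) →
      (∀ c, J t c → R J S c ⊂ R J S j → ∀ q, Cert J a (insert t (R J S c)) q →
        finrank F (U c) + 1 + q ≤ k) → False := by
    intro n
    induction n using Nat.strong_induction_on with
    | _ n ih =>
      intro j hj htj hq hsmall
      obtain ⟨q, hq, hkq⟩ := hq
      set K : Set β := {c | J t c ∧ R J S j ⊆ R J S c} with hK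
      let f : V →ₗ[F] (K → F) := LinearMap.pi fun c : K => v c
      have hmap : ∀ Z ⊆ R J S j, (span F (u '' Z)).map f =
          span F ((fun i => fun c : K => a i c) '' Z) := by
        intro Z hZ
        refine map_pi heq fun i hi => ⟨(hZ hi).1, fun c hc => (hc.2 (hZ hi)).2⟩
      have hYK : ∀ i ∈ insert t (R J S j), ∀ c ∈ K, J i c := by
        rintro i (rfl | hi) c hc
        · exact hc.1
        · exact (hc.2 hi).2
      -- the affine space `H`
      by_cases hH : ∃ x ∈ U j, ∀ c ∈ K, v c x = a t c
      · obtain ⟨x0, hx0, hx0'⟩ := hH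
        -- every element of `H` lies in some smaller `U c`
        have hall : ∀ x ∈ U j, (∀ c ∈ K, v c x = a t c) →
            ∃ c, J t c ∧ R J S c ⊂ R J S j ∧ x ∈ U c := by
          intro x hx hx'
          by_contra hcon
          push Not at hcon
          obtain ⟨c, htc, h1, h2⟩ := hN x
          by_cases hc : R J S j ⊆ R J S c
          · exact h1 (hUmono j c hc hx) (hx' c ⟨htc, hc⟩)
          · have hss : R J S c ⊂ R J S j := by
              refine ⟨?_, hc⟩
              rcases hnest j c htj htc with h | h
              · exact absurd h hc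
              · exact h
            obtain ⟨q', hq', hlt⟩ := h2 (hcon c htc hss)
            have := hsmall c htc hss q' hq'
            have hlt' : k < finrank F (U c) + 1 + q' := hlt
            omega
        -- the largest smaller neighbourhood
        obtain ⟨c0, hc0, hc0', _⟩ := hall x0 hx0 hx0'
        obtain ⟨j', hj', hmax⟩ : ∃ j' ∈ {c | J t c ∧ R J S c ⊂ R J S j}, ∀ c ∈
            {c | J t c ∧ R J S c ⊂ R J S j}, (R J S c).ncard ≤ (R J S j').ncard :=
          Set.exists_max_image _ (fun c => (R J S c).ncard) (Set.toFinite _) ⟨c0, hc0, hc0'⟩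
        obtain ⟨htj', hss'⟩ := hj'
        have hle : ∀ c, J t c → R J S c ⊂ R J S j → R J S c ⊆ R J S j' := by
          intro c hc hc'
          rcases hnest c j' hc htj' with h | h
          · exact h
          · have := hmax c ⟨hc, hc'⟩
            have h2 := Set.eq_of_subset_of_ncard_le h this (Set.toFinite _)
            exact h2.symm.subset
        have hHsub : ∀ x ∈ U j, (∀ c ∈ K, v c x = a t c) → x ∈ U j' := by
          intro x hx hx'
          obtain ⟨c, hc, hc', hxc⟩ := hall x hx hx'
          exact hUmono c j' (hle c hc hc') hxc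
        have hUle : U j' ≤ U j := hUmono _ _ hss'.1
        have hker : U j ⊓ LinearMap.ker f ≤ U j' := by
          intro y hy
          obtain ⟨hy1, hy2⟩ := hy
          have hy3 : ∀ c ∈ K, v c y = 0 := by
            intro c hc
            have := congrFun (LinearMap.mem_ker.1 hy2) ⟨c, hc⟩
            simpa [f] using this
          have h1 : x0 + y ∈ U j' := by
            refine hHsub _ (add_mem hx0 hy1) fun c hc => ?_
            rw [map_add, hx0' c hc, hy3 c hc, add_zero]
          have h2 : x0 ∈ U j' := hHsub x0 hx0 hx0'
          simpa using sub_mem h1 h2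
        have hrank := finrank_map_eq_of_le f hUle hker
        have ht_mem : (fun c : K => a t c) ∈ (U j').map f := by
          refine ⟨x0, hHsub x0 hx0 hx0', ?_⟩
          funext c
          exact hx0' c c.2
        have e1 : rk a (insert t (R J S j')) K = finrank F ((U j').map f) := by
          rw [rk, Set.image_insert_eq, Submodule.span_insert_eq_span, ← hmap _ hss'.1]
          rw [← hmap _ hss'.1]
          exact ht_mem
        have e2 : rk a (insert t (R J S j)) K = finrank F ((U j).map f) := by
          rw [rk, Set.image_insert_eq, Submodule.span_insert_eq_span, ← hmap _ subset_rfl]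
          rw [← hmap _ subset_rfl]
          exact Submodule.map_mono hUle ht_mem
        have hfin : finrank F (U j') ≤ finrank F (U j) := Submodule.finrank_mono hUle
        refine ih (R J S j').ncard ?_ j' rfl htj'
          ⟨q + (finrank F (U j) - finrank F (U j')), ?_, by omega⟩ ?_
        · rw [← hj]
          exact Set.ncard_lt_ncard hss' (Set.toFinite _)
        · refine Cert.step _ (insert t (R J S j)) K _ q (Set.insert_subset_insert hss'.1) hYK ?_ hq
          rw [e1, e2]
          omega
        · intro c hc hc'
          exact hsmall c hc (hc'.trans hss')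
      · -- `H` is empty
        have ht_mem : (fun c : K => a t c) ∉ (U j).map f := by
          rintro ⟨x, hx, hx'⟩
          refine hH ⟨x, hx, fun c hc => ?_⟩
          exact congrFun hx' ⟨c, hc⟩
        have h1 : rk a (R J S j) K + 1 ≤ rk a (insert t (R J S j)) K := by
          rw [rk, rk, Set.image_insert_eq, ← hmap _ subset_rfl]
          have hlt : (U j).map f < span F (insert (fun c : K => a t c)
              ((fun i => fun c : K => a i c) '' R J S j)) := by
            rw [SetLike.lt_iff_le_and_exists]
            refine ⟨?_, (fun c : K => a t c), Submodule.subset_span (Set.mem_insert _ _), ht_mem⟩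
            rw [hmap _ subset_rfl]
            exact Submodule.span_mono (Set.subset_insert _ _)
          have : Fintype β := Fintype.ofFinite β
          exact Submodule.finrank_lt_finrank_of_lt hlt
        have h2 : finrank F (U j) + (q + 1) ≤ k :=
          hD j (q + 1) (Cert.step _ _ K 1 q (Set.subset_insert _ _) hYK h1 hq)
        omega
  -- start of the descent
  by_cases hne : ∃ c, J t c
  · obtain ⟨c0, hc0⟩ := hne
    by_cases htight : ∃ c, J t c ∧ ∃ q, Cert J a (insert t (R J S c)) q ∧
        k ≤ finrank F (U c) + q
    · obtain ⟨c1, hc1⟩ := htight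
      obtain ⟨m, hm, hmin⟩ := Set.exists_min_image
        {c | J t c ∧ ∃ q, Cert J a (insert t (R J S c)) q ∧ k ≤ finrank F (U c) + q}
        (fun c => (R J S c).ncard) (Set.toFinite _) ⟨c1, hc1⟩
      refine descent _ m rfl hm.1 hm.2 fun c hc hc' q hq => ?_
      by_contra hcon
      have := hmin c ⟨hc, q, hq, by omega⟩
      have h2 := Set.ncard_lt_ncard hc' (Set.toFinite _)
      omega
    · push Not at htight
      obtain ⟨m, hm, hmax⟩ := Set.exists_max_image {c | J t c}
        (fun c => (R J S c).ncard) (Set.toFinite _) ⟨c0, hc0⟩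
      have h1 := htight m hm 0 (Cert.base _)
      have h2 : U m ≠ ⊤ := by
        intro h
        rw [h, finrank_top, hk] at h1
        omega
      obtain ⟨x, -, hx⟩ := SetLike.exists_of_lt (lt_top_iff_ne_top.2 h2)
      obtain ⟨c, htc, h3, h4⟩ := hN x
      have hxc : x ∉ U c := by
        intro hxc
        refine hx (hUmono c m ?_ hxc)
        rcases hnest c m htc hm with h | h
        · exact h
        · have h5 := hmax c htc
          exact (Set.eq_of_subset_of_ncard_le h h5 (Set.toFinite _)).symm.subset
      obtain ⟨q, hq, hlt⟩ := h4 hxc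
      have := htight c htc q hq
      have hlt' : k < finrank F (U c) + 1 + q := hlt
      omega
  · obtain ⟨c, htc, -⟩ := hN 0
    exact hne ⟨c, htc⟩

end Pool.Agent.W445.Tmr
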