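import Mathlib

/-!
# Bipartite graphs without long chordless cycles: building a chordless cycle
-/

set_option autoImplicit false

namespace Pool.Agent.W445.Tmr

open SimpleGraph

/-- the bipartite graph of a pattern -/
def bip {α β : Type} (P : α → β → Prop) : SimpleGraph (α ⊕ β) where
  Adj x y := (∃ i c, x = Sum.inl i ∧ y = Sum.inr c ∧ P i c) ∨
    ∃ i c, x = Sum.inr c ∧ y = Sum.inl i ∧ P i c
  symm := ⟨by
    rintro x y (⟨i, c, h1, h2, h⟩ | ⟨i, c, h1, h2, h⟩)
    · exact Or.inr ⟨i, c, h2, h1, h⟩
    · exact Or.inl ⟨i, c, h2, h1, h⟩⟩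
  loopless := ⟨by
    rintro x (⟨i, c, h1, h2, h⟩ | ⟨i, c, h1, h2, h⟩)
    · rw [h1] at h2; cases h2
    · rw [h1] at h2; cases h2⟩

variable {α β : Type} {P J : α → β → Prop}

@[simp] lemma bip_lr {i : α} {c : β} : (bip P).Adj (Sum.inl i) (Sum.inr c) ↔ P i c := by
  simp [bip]

@[simp] lemma bip_rl {i : α} {c : β} : (bip P).Adj (Sum.inr c) (Sum.inl i) ↔ P i c := by
  simp [bip]

@[simp] lemma bip_ll {i j : α} : ¬ (bip P).Adj (Sum.inl i) (Sum.inl j) := by
  simp [bip]

@[simp] lemma bip_rr {c e : β} : ¬ (bip P).Adj (Sum.inr c) (Sum.inr e) := by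
  simp [bip]

/-- every cycle of length at least six has a chord -/
def Chordal (G : SimpleGraph (α ⊕ β)) : Prop :=
  ∀ (u : α ⊕ β) (c : G.Walk u u), c.IsCycle → 6 ≤ c.length →
    ∃ i j : ℕ, i + 1 < j ∧ j < c.length ∧ ¬ (i = 0 ∧ j + 1 = c.length) ∧
      G.Adj (c.getVert i) (c.getVert j)

theorem no_hole (hG : Chordal (bip J)) {M ci h : β} {d e : α}
    (q : (bip J).Walk (Sum.inr ci) (Sum.inr h)) (hq : q.IsPath) (hlen : 2 ≤ q.length)
    (hdM : J d M) (heM : J e M) (hdc : J d ci) (heh : J e h)
    (h1 : ∀ k ≤ q.length, ∀ i, q.getVert k = Sum.inl i → ¬ J i M)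
    (h2 : ∀ k ≤ q.length, ∀ c, q.getVert k = Sum.inr c →
      (0 < k → ¬ J d c) ∧ (k < q.length → ¬ J e c))
    (h3 : ∀ k l, k + 1 < l → l ≤ q.length → ¬ (bip J).Adj (q.getVert k) (q.getVert l)) :
    False := by
  have a1 : (bip J).Adj (Sum.inr M) (Sum.inl d) := by simpa using hdM
  have a2 : (bip J).Adj (Sum.inl d) (Sum.inr ci) := by simpa using hdc
  have a3 : (bip J).Adj (Sum.inr h) (Sum.inl e) := by simpa using heh
  have a4 : (bip J).Adj (Sum.inl e) (Sum.inr M) := by simpa using heM
  have hci : ¬ J e ci := (h2 0 (by omega) ci (by simp)).2 (by omega)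
  have hh : ¬ J d h := (h2 q.length le_rfl h (by simp)).1 (by omega)
  have hde : d ≠ e := by
    rintro rfl
    exact hh heh
  have hciM : ci ≠ M := by
    rintro rfl
    exact hci heM
  have hMq : Sum.inr M ∉ q.support := by
    rw [Walk.mem_support_iff_exists_getVert]
    rintro ⟨k, hk, hk'⟩
    have := h2 k hk' M hk
    rcases Nat.eq_zero_or_pos k with h0 | h0
    · exact this.2 (by omega) heM
    · exact this.1 h0 hdM
  have heq : Sum.inl e ∉ q.support := by
    rw [Walk.mem_support_iff_exists_getVert]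
    rintro ⟨k, hk, hk'⟩
    exact h1 k hk' e hk heM
  have hdq : Sum.inl d ∉ q.support := by
    rw [Walk.mem_support_iff_exists_getVert]
    rintro ⟨k, hk, hk'⟩
    exact h1 k hk' d hk hdM
  set r := (q.concat a3).concat a4 with hr
  have hr_path : r.IsPath := by
    refine (hq.concat heq a3).concat ?_ a4
    rw [Walk.support_concat]
    simp only [List.mem_append, List.mem_singleton, not_or]
    exact ⟨hMq, by simp⟩
  have hdr : Sum.inl d ∉ r.support := by
    rw [hr, Walk.support_concat, Walk.support_concat]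
    simp only [List.mem_append, List.mem_singleton, not_or]
    exact ⟨⟨hdq, by simpa using hde⟩, by simp⟩
  set p := Walk.cons a2 r with hp
  have hp_path : p.IsPath := (Walk.cons_isPath_iff _ _).2 ⟨hr_path, hdr⟩
  have hedge : s(Sum.inr M, Sum.inl d) ∉ p.edges := by
    rw [hp, Walk.edges_cons, List.mem_cons, not_or]
    refine ⟨?_, ?_⟩
    · simp [hciM.symm]
    · intro hcon
      exact hdr (Walk.snd_mem_support_of_mem_edges _ hcon)
  set w := Walk.cons a1 p with hw
  have hwc : w.IsCycle := (Walk.cons_isCycle_iff _ _).2 ⟨hp_path, hedge⟩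
  have hwl : w.length = q.length + 4 := by
    simp [hw, hp, hr]
  -- the vertices of `w`
  have g0 : w.getVert 0 = Sum.inr M := by simp
  have g1 : w.getVert 1 = Sum.inl d := by simp [hw, hp]
  have g2 : ∀ k ≤ q.length, w.getVert (k + 2) = q.getVert k := by
    intro k hk
    rw [hw, Walk.getVert_cons_succ, hp, Walk.getVert_cons_succ, hr, Walk.concat_eq_append,
      Walk.getVert_append, if_pos (by simp; omega), Walk.concat_eq_append, Walk.getVert_append]
    split_ifs with h
    · rfl
    · have : k = q.length := by omega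
      subst this
      simp
  have g3 : w.getVert (q.length + 3) = Sum.inl e := by
    rw [hw, Walk.getVert_cons_succ, hp, Walk.getVert_cons_succ, hr, Walk.concat_eq_append,
      Walk.getVert_append]
    simp
  obtain ⟨i, j, hij, hj, hij0, hadj⟩ := hG _ w hwc (by omega)
  rw [hwl] at hj hij0
  rcases Nat.lt_or_ge j (q.length + 3) with hj3 | hj3
  · obtain ⟨j, rfl⟩ : ∃ j', j = j' + 2 := ⟨j - 2, by omega⟩
    rw [g2 j (by omega)] at hadj
    rcases Nat.lt_or_ge i 2 with hi | hi
    · have hi' : i = 0 ∨ i = 1 := by omega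
      rcases hi' with rfl | rfl
      · rw [g0] at hadj
        rcases hv : q.getVert j with x | c
        · rw [hv, bip_rl] at hadj
          exact h1 j (by omega) x hv hadj
        · rw [hv] at hadj
          exact bip_rr hadj
      · rw [g1] at hadj
        rcases hv : q.getVert j with x | c
        · rw [hv] at hadj
          exact bip_ll hadj
        · rw [hv, bip_lr] at hadj
          exact (h2 j (by omega) c hv).1 (by omega) hadj
    · obtain ⟨i, rfl⟩ : ∃ i', i = i' + 2 := ⟨i - 2, by omega⟩
      rw [g2 i (by omega)] at hadj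
      exact h3 i j (by omega) (by omega) hadj
  · have : j = q.length + 3 := by omega
    subst this
    rw [g3] at hadj
    rcases Nat.lt_or_ge i 2 with hi | hi
    · have hi' : i = 0 ∨ i = 1 := by omega
      rcases hi' with rfl | rfl
      · exact hij0 ⟨rfl, by omega⟩
      · rw [g1] at hadj
        exact bip_ll hadj
    · obtain ⟨i, rfl⟩ : ∃ i', i = i' + 2 := ⟨i - 2, by omega⟩
      rw [g2 i (by omega)] at hadj
      rcases hv : q.getVert i with x | c
      · rw [hv] at hadj
        exact bip_ll hadj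
      · rw [hv, bip_rl] at hadj
        exact (h2 i (by omega) c hv).2 (by omega) hadj

end Pool.Agent.W445.Tmr
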