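import Mathlib

/-!
# Minimal rank completions: certificates and configurations

`J i c` : the entry `(i, c)` is specified, with value `a i c`.
-/

set_option autoImplicit false

namespace Pool.Agent.W445.Tmr

open Module Submodule

section general

variable {F : Type*} [Field F] {V W : Type*} [AddCommGroup V] [Module F V] [FiniteDimensional F V]
  [AddCommGroup W] [Module F W]

lemma finrank_map_add (f : V →ₗ[F] W) (P : Submodule F V) :
    finrank F (P.map f) + finrank F (P ⊓ LinearMap.ker f : Submodule F V) = finrank F P := by
  have h := LinearMap.finrank_range_add_finrank_ker (f.domRestrict P)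
  rw [LinearMap.range_domRestrict] at h
  have e : finrank F (LinearMap.ker (f.domRestrict P)) =
      finrank F (P ⊓ LinearMap.ker f : Submodule F V) := by
    have h1 : LinearMap.ker (f.domRestrict P) = (LinearMap.ker f).comap P.subtype := by
      rw [LinearMap.ker_domRestrict]
    rw [h1, ← Submodule.finrank_map_subtype_eq P, Submodule.map_comap_subtype]
  rw [e] at h
  exact h

lemma finrank_map_le_of_le (f : V →ₗ[F] W) {P Q : Submodule F V} (h : P ≤ Q) :
    finrank F (Q.map f) + finrank F P ≤ finrank F (P.map f) + finrank F Q := by
  have h1 := finrank_map_add f P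
  have h2 := finrank_map_add f Q
  have h3 : finrank F (P ⊓ LinearMap.ker f : Submodule F V) ≤
      finrank F (Q ⊓ LinearMap.ker f : Submodule F V) :=
    Submodule.finrank_mono (inf_le_inf_right _ h)
  omega

lemma finrank_map_eq_of_le (f : V →ₗ[F] W) {P Q : Submodule F V} (h : P ≤ Q)
    (hk : Q ⊓ LinearMap.ker f ≤ P) :
    finrank F (Q.map f) + finrank F P = finrank F (P.map f) + finrank F Q := by
  have h1 := finrank_map_add f P
  have h2 := finrank_map_add f Q
  have h3 : P ⊓ LinearMap.ker f = Q ⊓ LinearMap.ker f :=
    le_antisymm (inf_le_inf_right _ h) (le_inf hk inf_le_right)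
  rw [h3] at h1
  omega

end general

variable {F : Type} [Field F] {α β : Type} [Finite β]

/-- the rank of the submatrix of `a` with rows `X` and columns `K` -/
noncomputable def rk (a : α → β → F) (X : Set α) (K : Set β) : ℕ :=
  finrank F (span F ((fun i => fun c : K => a i c) '' X))

/-- certificates for lower bounds of the rank -/
inductive Cert (J : α → β → Prop) (a : α → β → F) : Set α → ℕ → Prop
  | base (X : Set α) : Cert J a X 0
  | step (X Y : Set α) (K : Set β) (d q : ℕ) (hXY : X ⊆ Y) (hJ : ∀ i ∈ Y, ∀ c ∈ K, J i c)
      (hd : rk a X K + d ≤ rk a Y K) (h : Cert J a Y q) : Cert J a X (q + d)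

/-- A certificate gives a triangular subpattern. -/
lemma Cert.exists_triangular {J : α → β → Prop} {a : α → β → F} {X : Set α} {q : ℕ}
    (h : Cert J a X q) : ∃ T : α → β → Prop, (∀ i c, T i c → J i c) ∧
      (∀ c, (∀ i, ¬ T i c) ∨ ∀ i ∈ X, T i c) ∧
      (∀ c c', (∀ i, T i c → T i c') ∨ ∀ i, T i c' → T i c) ∧
      ∀ B : α → β → F, (∀ i c, T i c → B i c = a i c) →
        finrank F (span F (B '' X)) + q ≤ finrank F (span F (Set.range B)) := by
  induction h with
  | base X =>
    refine ⟨fun _ _ => False, by simp, by simp, by simp, fun B _ => ?_⟩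
    have : Fintype β := Fintype.ofFinite β
    exact Submodule.finrank_mono (Submodule.span_mono (Set.image_subset_range _ _))
  | step X Y K d q hXY hJ hd _ ih =>
    obtain ⟨T, hTJ, hT1, hT2, hT3⟩ := ih
    refine ⟨fun i c => T i c ∨ (i ∈ Y ∧ c ∈ K), ?_, ?_, ?_, ?_⟩
    · rintro i c (h | ⟨h1, h2⟩)
      · exact hTJ i c h
      · exact hJ i h1 c h2
    · intro c
      by_cases hc : c ∈ K
      · exact Or.inr fun i hi => Or.inr ⟨hXY hi, hc⟩
      · rcases hT1 c with h | h
        · left
          rintro i (h' | h')
          · exact h i h'
          · exact hc h'.2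
        · exact Or.inr fun i hi => Or.inl (h i (hXY hi))
    · intro c c'
      rcases hT1 c with h1 | h1 <;> rcases hT1 c' with h2 | h2
      · by_cases hc : c ∈ K
        · right
          rintro i (h' | h')
          · exact absurd h' (h2 i)
          · exact Or.inr ⟨h'.1, hc⟩
        · left
          rintro i (h' | h')
          · exact absurd h' (h1 i)
          · exact absurd h'.2 hc
      · left
        rintro i (h' | h')
        · exact absurd h' (h1 i)
        · exact Or.inl (h2 i h'.1)
      · right
        rintro i (h' | h')
        · exact absurd h' (h2 i)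
        · exact Or.inl (h1 i h'.1)
      · rcases hT2 c c' with h | h
        · left
          rintro i (h' | h')
          · exact Or.inl (h i h')
          · exact Or.inl (h2 i h'.1)
        · right
          rintro i (h' | h')
          · exact Or.inl (h i h')
          · exact Or.inl (h1 i h'.1)
    · intro B hB
      have : Fintype β := Fintype.ofFinite β
      have h3 := hT3 B fun i c h => hB i c (Or.inl h)
      let f : (β → F) →ₗ[F] (K → F) := LinearMap.funLeft F F (Subtype.val : K → β)
      have key : ∀ Z : Set α, Z ⊆ Y → finrank F ((span F (B '' Z)).map f) = rk a Z K := by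
        intro Z hZ
        have e : (⇑f ∘ B) '' Z = (fun i => fun c : K => a i c) '' Z := by
          refine Set.image_congr fun i hi => ?_
          funext c
          exact hB i c (Or.inr ⟨hZ hi, c.2⟩)
        rw [Submodule.map_span, rk, ← Set.image_comp, e]
      have h4 := finrank_map_le_of_le f
        (Submodule.span_mono (Set.image_mono hXY) : span F (B '' X) ≤ span F (B '' Y))
      rw [key X hXY, key Y subset_rfl] at h4
      omega

lemma Cert.mono {J : α → β → Prop} {a : α → β → F} {X Y : Set α} {q : ℕ} (hXY : X ⊆ Y)
    (h : Cert J a Y q) : Cert J a X q := by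
  have := Cert.step X Y ∅ 0 q hXY (by simp) ?_ h
  · simpa using this
  · rw [add_zero, rk, rk]
    have : Fintype β := Fintype.ofFinite β
    exact Submodule.finrank_mono (Submodule.span_mono (Set.image_mono hXY))

end Pool.Agent.W445.Tmr
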