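import Pool.Agent.W445.Tmr.Hole
import Pool.Agent.W445.Tmr.Conf

/-!
# Nest points in bipartite graphs without long chordless cycles (Brouwer, Kolen)
-/

set_option autoImplicit false

namespace Pool.Agent.W445.Tmr

open SimpleGraph

variable {α β : Type} {J : α → β → Prop}

/-- the graph outside of the column `M` -/
def Out (J : α → β → Prop) (X : Set α) (M : β) (i : α) (c : β) : Prop :=
  J i c ∧ i ∈ X ∧ ¬ J i M ∧ ¬ (∀ x ∈ X, J x c)

lemma reach_spec {X : Set α} {M : β} {x0 : α} (h0 : x0 ∈ X) (h0M : ¬ J x0 M) {w : α ⊕ β}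
    (hw : (bip (Out J X M)).Reachable (Sum.inl x0) w) :
    (∀ i, w = Sum.inl i → i ∈ X ∧ ¬ J i M) ∧
    (∀ c, w = Sum.inr c → ¬ (∀ x ∈ X, J x c) ∧ ∃ a, a ∈ X ∧ ¬ J a M ∧
      (bip (Out J X M)).Reachable (Sum.inl x0) (Sum.inl a) ∧ J a c) := by
  rw [reachable_iff_reflTransGen] at hw
  rcases Relation.ReflTransGen.cases_tail hw with h | ⟨z, hz, hzw⟩
  · subst h
    refine ⟨?_, ?_⟩
    · rintro i hi
      cases hi
      exact ⟨h0, h0M⟩
    · rintro c hc
      cases hc
  · rcases hzw with ⟨i, c, rfl, rfl, h⟩ | ⟨i, c, rfl, rfl, h⟩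
    · refine ⟨?_, ?_⟩
      · rintro j hj
        cases hj
      · rintro e he
        cases he
        refine ⟨h.2.2.2, i, h.2.1, h.2.2.1, ?_, h.1⟩
        rw [reachable_iff_reflTransGen]
        exact hz
    · refine ⟨?_, ?_⟩
      · rintro j hj
        cases hj
        exact ⟨h.2.1, h.2.2.1⟩
      · rintro e he
        cases he

/-- the main point: some row of the maximal column `M` is not attached to the component -/
theorem attach [Finite α] [Finite β] (hG : Chordal (bip J)) {X : Set α} {M : β} {x0 : α}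
    (h0 : x0 ∈ X) (h0M : ¬ J x0 M)
    (hmax : ∀ c, (∀ i ∈ X, J i M → J i c) → (∃ i ∈ X, ¬ J i M ∧ J i c) → ∀ i ∈ X, J i c)
    (hall : ∀ i ∈ X, J i M → ∃ c, ¬ (∀ x ∈ X, J x c) ∧ J i c ∧ ∃ a, a ∈ X ∧ ¬ J a M ∧
      (bip (Out J X M)).Reachable (Sum.inl x0) (Sum.inl a) ∧ J a c)
    (hne : ∃ i ∈ X, J i M) : False := by
  set G' := bip (Out J X M) with hG'
  have hle : G' ≤ bip J := by
    intro x y h
    rcases h with ⟨i, c, rfl, rfl, h⟩ | ⟨i, c, rfl, rfl, h⟩
    · exact bip_lr.2 h.1
    · exact bip_rl.2 h.1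
  -- columns meeting the component
  let Meets : β → Prop := fun c => ¬ (∀ x ∈ X, J x c) ∧ ∃ a, a ∈ X ∧ ¬ J a M ∧
      G'.Reachable (Sum.inl x0) (Sum.inl a) ∧ J a c
  let N : β → Set α := fun c => {i | i ∈ X ∧ J i M ∧ J i c}
  obtain ⟨i1, hi1, hi1M⟩ := hne
  obtain ⟨c1, hc1, hc1', hc1''⟩ := hall i1 hi1 hi1M
  obtain ⟨g, hg, hgmax⟩ := Set.exists_max_image {c | Meets c} (fun c => (N c).ncard)
    (Set.toFinite _) ⟨c1, hc1, hc1''⟩
  have hgM : ∃ e ∈ X, J e M ∧ ¬ J e g := by
    by_contra hcon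
    push Not at hcon
    obtain ⟨a, ha1, ha2, _, ha3⟩ := hg.2
    exact hg.1 (hmax g hcon ⟨a, ha1, ha2, ha3⟩)
  obtain ⟨e0, he0, he0M, he0g⟩ := hgM
  have hmeets : ∀ c, Meets c ↔ G'.Reachable (Sum.inl x0) (Sum.inr c) := by
    intro c
    constructor
    · rintro ⟨h1, a, ha1, ha2, ha3, ha4⟩
      refine ha3.trans (Adj.reachable ?_)
      rw [hG', bip_lr]
      exact ⟨ha4, ha1, ha2, h1⟩
    · intro h
      exact (reach_spec h0 h0M h).2 c rfl
  let HH : β → Prop := fun c => Meets c ∧ ∃ e ∈ X, J e M ∧ J e c ∧ ¬ J e g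
  -- shortest walk
  have hex : ∃ n : ℕ, ∃ h, HH h ∧ ∃ p : G'.Walk (Sum.inr g) (Sum.inr h), p.length = n := by
    obtain ⟨c2, hc2, hc2', hc2''⟩ := hall e0 he0 he0M
    have h1 : Meets c2 := ⟨hc2, hc2''⟩
    obtain ⟨p⟩ := ((hmeets g).1 hg).symm.trans ((hmeets c2).1 h1)
    exact ⟨p.length, c2, ⟨h1, e0, he0, he0M, hc2', he0g⟩, p, rfl⟩
  classical
  obtain ⟨h, hh, p1, hp1⟩ := Nat.find_spec hex
  have hmin : ∀ h', HH h' → ∀ p : G'.Walk (Sum.inr g) (Sum.inr h'),
      Nat.find hex ≤ p.length := fun h' hh' p => Nat.find_min' hex ⟨h', hh', p, rfl⟩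
  set p := p1.bypass with hp
  have hpl : p.length = Nat.find hex := le_antisymm
    (by rw [← hp1]; exact p1.length_bypass_le_length) (hmin h hh p)
  have hpath : p.IsPath := p1.bypass_isPath
  set n := Nat.find hex with hn
  have hreach : ∀ k, G'.Reachable (Sum.inl x0) (p.getVert k) := fun k =>
    ((hmeets g).1 hg).trans ⟨p.take k⟩
  -- columns before the end are not in `HH`
  have hb : ∀ k < n, ∀ c, p.getVert k = Sum.inr c → ∀ e ∈ X, J e M → J e c → J e g := by
    intro k hk c hc e he heM hec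
    by_contra hcon
    have h1 : Meets c := by
      rw [hmeets, ← hc]
      exact hreach k
    have := hmin c ⟨h1, e, he, heM, hec, hcon⟩ ((p.take k).copy rfl hc)
    rw [Walk.length_copy, Walk.take_length] at this
    omega
  -- induced
  have hind : ∀ k l, k + 1 < l → l ≤ n → ¬ (bip J).Adj (p.getVert k) (p.getVert l) := by
    intro k l hkl hl hadj
    have hk := reach_spec h0 h0M (hreach k)
    have hl' := reach_spec h0 h0M (hreach l)
    have hadj' : G'.Adj (p.getVert k) (p.getVert l) := by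
      rcases hv : p.getVert k with i | c <;> rcases hv' : p.getVert l with j | c'
      · rw [hv, hv'] at hadj; exact absurd hadj bip_ll
      · rw [hv, hv', bip_lr] at hadj
        rw [hG', bip_lr]
        exact ⟨hadj, (hk.1 i hv).1, (hk.1 i hv).2, (hl'.2 c' hv').1⟩
      · rw [hv, hv', bip_rl] at hadj
        rw [hG', bip_rl]
        exact ⟨hadj, (hl'.1 j hv').1, (hl'.1 j hv').2, (hk.2 c hv).1⟩
      · rw [hv, hv'] at hadj; exact absurd hadj bip_rr
    have := hmin h hh ((p.take k).append (Walk.cons hadj' (p.drop l)))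
    rw [Walk.length_append, Walk.length_cons, Walk.take_length, Walk.drop_length] at this
    omega
  -- the last column containing an element outside of `h`
  let D : ℕ → Prop := fun k => ∃ c d, p.getVert k = Sum.inr c ∧ J d c ∧ d ∈ X ∧ J d M ∧ ¬ J d h
  have hD0 : D 0 := by
    obtain ⟨e, he, heM, heh, heg⟩ := hh.2
    by_contra hcon
    have hsub : N g ⊆ N h := by
      intro d hd
      refine ⟨hd.1, hd.2.1, ?_⟩
      by_contra hdh
      exact hcon ⟨g, d, by simp, hd.2.2, hd.1, hd.2.1, hdh⟩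
    have hss : N g ⊂ N h := ⟨hsub, fun hcon2 => heg (hcon2 ⟨he, heM, heh⟩).2.2⟩
    have h1 := Set.ncard_lt_ncard hss (Set.toFinite _)
    have h2 := hgmax h hh.1
    omega
  set i := Nat.findGreatest D n with hi
  have hDi : D i := Nat.findGreatest_spec (Nat.zero_le n) hD0
  have hin : i ≤ n := Nat.findGreatest_le n
  have hDk : ∀ k, i < k → k ≤ n → ¬ D k := fun k hk hkn => Nat.findGreatest_is_greatest hk hkn
  obtain ⟨ci, d, hci, hdc, hdX, hdM, hdh⟩ := hDi
  obtain ⟨e, he, heM, heh, heg⟩ := hh.2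
  let q' : G'.Walk (Sum.inr ci) (Sum.inr h) := (p.drop i).copy hci rfl
  have hq'l : q'.length = n - i := by
    simp only [q']
    rw [Walk.length_copy, Walk.drop_length, hpl]
  have hq'v : ∀ k, q'.getVert k = p.getVert (i + k) := by
    intro k
    simp only [q']
    rw [Walk.getVert_copy, Walk.drop_getVert]
  have hq'p : q'.IsPath := by
    simp only [q']
    rw [Walk.isPath_copy]
    exact hpath.drop i
  have hq'2 : 2 ≤ q'.length := by
    by_contra hcon
    have h01 : q'.length = 0 ∨ q'.length = 1 := by omega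
    rcases h01 with h01 | h01
    · have := Walk.eq_of_length_eq_zero h01
      cases this
      exact hdh hdc
    · have := Walk.adj_of_length_eq_one h01
      rw [hG'] at this
      exact bip_rr this
  let q : (bip J).Walk (Sum.inr ci) (Sum.inr h) := q'.mapLe hle
  have hql : q.length = q'.length := Walk.length_map _ _
  have hqv : ∀ k, q.getVert k = p.getVert (i + k) := by
    intro k
    rw [← hq'v]
    simp only [q, Walk.mapLe]
    rw [Walk.getVert_map]
    rfl
  have hqp : q.IsPath := (Walk.isPath_mapLe hle).2 hq'p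
  refine no_hole hG q hqp (by omega) hdM heM hdc heh ?_ ?_ ?_
  · intro k _ x hx
    rw [hqv] at hx
    exact ((reach_spec h0 h0M (hreach (i + k))).1 x hx).2
  · intro k hk c hc
    rw [hqv] at hc
    refine ⟨fun hk0 hdc' => hDk (i + k) (by omega) (by omega) ⟨c, d, hc, hdc', hdX, hdM, hdh⟩,
      fun hk1 hec => heg (hb (i + k) (by omega) c hc e he heM hec)⟩
  · intro k l hkl hl
    rw [hqv, hqv]
    exact hind (i + k) (i + l) (by omega) (by omega)

/-- a nest point outside of a given column -/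
theorem nest_outside [Finite α] [Finite β] (hG : Chordal (bip J)) :
    ∀ (n : ℕ) (X : Set α), X.ncard = n → ∀ E : β, (∃ x ∈ X, ¬ J x E) →
      ∃ t ∈ X, ¬ J t E ∧ ∀ c c', J t c → J t c' →
        (∀ i ∈ X, J i c → J i c') ∨ ∀ i ∈ X, J i c' → J i c := by
  intro n
  induction n using Nat.strong_induction_on with
  | _ n ih =>
    intro X hX E hE
    let N : β → Set α := fun c => {i | i ∈ X ∧ J i c}
    obtain ⟨M, hM, hmax⟩ := Set.exists_max_image
      {c | (∃ x ∈ X, ¬ J x c) ∧ ∀ i ∈ X, J i E → J i c} (fun c => (N c).ncard)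
      (Set.toFinite _) ⟨E, hE, fun _ _ h => h⟩
    obtain ⟨⟨x0, h0, h0M⟩, hEM⟩ := hM
    by_cases hneM : ∃ i ∈ X, J i M
    · set G' := bip (Out J X M) with hG'
      let A : Set α := {a | a ∈ X ∧ ¬ J a M ∧ G'.Reachable (Sum.inl x0) (Sum.inl a)}
      let C : Set α := {i | i ∈ X ∧ J i M ∧ ∃ c, ¬ (∀ x ∈ X, J x c) ∧ J i c ∧ ∃ a ∈ A, J a c}
      have hx0A : x0 ∈ A := ⟨h0, h0M, Reachable.refl _⟩
      have hsub : A ∪ C ⊆ X := by
        rintro i (hi | hi)
        · exact hi.1
        · exact hi.1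
      have hne : ∃ i ∈ X, i ∉ A ∪ C := by
        by_contra hcon
        push Not at hcon
        have hall : ∀ i ∈ X, J i M → i ∈ C := by
          intro i hi hiM
          rcases hcon i hi with h | h
          · exact absurd hiM h.2.1
          · exact h
        refine attach hG h0 h0M ?_ ?_ hneM
        · intro c hc hc'
          by_contra hcon2
          push Not at hcon2
          obtain ⟨x, hx, hxc⟩ := hcon2
          have h1 := hmax c ⟨⟨x, hx, hxc⟩, fun i hi hiE => hc i hi (hEM i hi hiE)⟩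
          have hss : N M ⊂ N c := by
            refine ⟨fun i hi => ⟨hi.1, hc i hi.1 hi.2⟩, fun hcon3 => ?_⟩
            obtain ⟨i, hi, hiM, hic⟩ := hc'
            exact hiM (hcon3 ⟨hi, hic⟩).2
          have h2 := Set.ncard_lt_ncard hss (Set.toFinite _)
          omega
        · intro i hi hiM
          obtain ⟨_, _, c, h1, h2, a, ha, h3⟩ := hall i hi hiM
          exact ⟨c, h1, h2, a, ha.1, ha.2.1, ha.2.2, h3⟩
      obtain ⟨y, hy, hyn⟩ := hne
      have hlt : (A ∪ C).ncard < n := by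
        rw [← hX]
        exact Set.ncard_lt_ncard ⟨hsub, fun h => hyn (h hy)⟩ (Set.toFinite _)
      obtain ⟨t, ht, htM, hnt⟩ := ih _ hlt (A ∪ C) rfl M ⟨x0, Or.inl hx0A, h0M⟩
      have htA : t ∈ A := by
        rcases ht with h | h
        · exact h
        · exact absurd h.2.1 htM
      have hin : ∀ c, J t c → ¬ (∀ x ∈ X, J x c) → ∀ i ∈ X, J i c → i ∈ A ∪ C := by
        intro c htc hc i hi hic
        by_cases hiM : J i M
        · exact Or.inr ⟨hi, hiM, c, hc, hic, t, htA, htc⟩
        · refine Or.inl ⟨hi, hiM, htA.2.2.trans ?_⟩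
          have e1 : G'.Adj (Sum.inl t) (Sum.inr c) := by
            rw [hG', bip_lr]
            exact ⟨htc, htA.1, htM, hc⟩
          have e2 : G'.Adj (Sum.inr c) (Sum.inl i) := by
            rw [hG', bip_rl]
            exact ⟨hic, hi, hiM, hc⟩
          exact e1.reachable.trans e2.reachable
      refine ⟨t, htA.1, fun h => htM (hEM t htA.1 h), fun c c' hc hc' => ?_⟩
      by_cases hf : ∀ x ∈ X, J x c
      · exact Or.inr fun i hi _ => hf i hi
      · by_cases hf' : ∀ x ∈ X, J x c'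
        · exact Or.inl fun i hi _ => hf' i hi
        · rcases hnt c c' hc hc' with h | h
          · exact Or.inl fun i hi hic => h i (hin c hc hf i hi hic) hic
          · exact Or.inr fun i hi hic => h i (hin c' hc' hf' i hi hic) hic
    · push Not at hneM
      have hfull : ∀ c, J x0 c → ∀ i ∈ X, J i c := by
        intro c hc
        by_contra hcon
        push Not at hcon
        obtain ⟨x, hx, hxc⟩ := hcon
        have h1 := hmax c ⟨⟨x, hx, hxc⟩, fun i hi hiE => absurd (hEM i hi hiE) (hneM i hi)⟩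
        have h2 : N M = ∅ := by
          ext i
          simp only [N, Set.mem_ofPred_eq, Set.mem_empty_iff_false, iff_false, not_and]
          exact hneM i
        rw [h2, Set.ncard_empty] at h1
        have h3 : (N c).Nonempty := ⟨x0, h0, hc⟩
        have h4 := (Set.ncard_pos (Set.toFinite _)).2 h3
        omega
      exact ⟨x0, h0, fun h => h0M (hEM x0 h0 h), fun c c' _ hc' =>
        Or.inl fun i hi _ => hfull c' hc' i hi⟩

theorem hasNest [Finite α] [Finite β] (hG : Chordal (bip J)) : HasNest J := by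
  intro S hS
  by_cases h : ∃ E : β, ∃ x ∈ S, ¬ J x E
  · obtain ⟨E, hE⟩ := h
    obtain ⟨t, ht, _, hnt⟩ := nest_outside hG _ S rfl E hE
    exact ⟨t, ht, hnt⟩
  · push Not at h
    obtain ⟨t, ht⟩ := hS
    exact ⟨t, ht, fun c c' _ _ => Or.inl fun i hi _ => h c' i hi⟩

end Pool.Agent.W445.Tmr
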